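import Pool.Agent.Y853.PZ.Cov

/-!
# Exponents in the divisor problem of Piltz, and zeros to the left of the critical line of the
derivatives of zeta, of `ζ - a`, and of every `Q(d/ds) ζ - A`

The exponent `α_k` for one `k` is controlled by the number of zeros of any one function
`F = Q(d/ds) ζ - A` to the left of `1 - θ`, and conversely, in a quantitative form; so `α_k ≤ θ` holds
for all `k` if and only if `F` has `o(log T)` zeros there in every window of length `2`.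
-/

set_option autoImplicit false

open Polynomial Filter Topology

namespace Pool.Agent.Results.MP_bc6037_nt.ExponentsAndZeros

/-- The sum of `d_k(n)` over `n ≤ x`. -/
noncomputable def D (k : ℕ) (x : ℝ) : ℝ :=
  ∑ n ∈ Finset.Icc 1 ⌊x⌋₊, (((ArithmeticFunction.zeta ^ k : ArithmeticFunction ℕ) n : ℕ) : ℝ)

/-- `D_k(x) - x P(log x)`. -/
noncomputable def Delta (k : ℕ) (P : ℝ[X]) (x : ℝ) : ℝ := D k x - x * P.eval (Real.log x)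

/-- `x P(log x)` is the main term of `D_k(x)`: the difference is `o(x)`. For each `k ≥ 1` there is exactly
one such `P` (first part of the theorem), so `Delta k P` is then the remainder `Δ_k`. -/
def IsMain (k : ℕ) (P : ℝ[X]) : Prop := Tendsto (fun x : ℝ => Delta k P x / x) atTop (𝓝 0)

/-- `Δ_k(x) = O(x^(θ + ε))` for every `ε > 0`; that is `α_k ≤ θ`. -/
def Sup (k : ℕ) (P : ℝ[X]) (θ : ℝ) : Prop := ∀ ε : ℝ, 0 < ε → ∃ C : ℝ, ∀ x : ℝ, 1 ≤ x →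
  |Delta k P x| ≤ C * x ^ (θ + ε)

/-- The first moment over `[X, 2X]` of the positive part of `e Δ_k` is `O(X^(1 + θ + ε))` for every
`ε > 0`; `e = 1` and `e = -1` are used. -/
def Side (e : ℝ) (k : ℕ) (P : ℝ[X]) (θ : ℝ) : Prop := ∀ ε : ℝ, 0 < ε → ∃ C : ℝ, ∀ X : ℝ, 1 ≤ X →
  ∫ x in X..(2 * X), max (e * Delta k P x) 0 ≤ C * X ^ (1 + θ + ε)

/-- Entire functions bounded on every vertical strip (for example constants, Dirichlet polynomials). -/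
def Tame (A : ℂ → ℂ) : Prop := Differentiable ℂ A ∧ ∀ R : ℝ, ∃ B : ℝ, ∀ s : ℂ, |s.re| ≤ R → ‖A s‖ ≤ B

/-- `Q(d/ds) ζ(s) - A(s)`. -/
noncomputable def F (Q : ℂ[X]) (A : ℂ → ℂ) (s : ℂ) : ℂ :=
  (Q.sum fun j c => c * iteratedDeriv j riemannZeta s) - A s

/-- At most `η log T` zeros of `F`, counted with multiplicity, in the box `-1 < Re s < 1 - θ - η`,
`|Im s - T| ≤ 1`. -/
def Few (F : ℂ → ℂ) (θ η T : ℝ) : Prop := ∀ S : Finset ℂ,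
  (∀ s ∈ S, F s = 0 ∧ -1 < s.re ∧ s.re < 1 - θ - η ∧ |s.im - T| ≤ 1) →
    ∑ s ∈ S, (analyticOrderNatAt F s : ℝ) ≤ η * Real.log T

theorem result :
    (∀ k : ℕ, 1 ≤ k → ∃! P : ℝ[X], IsMain k P) ∧
    ∀ P : ℕ → ℝ[X], (∀ k : ℕ, 1 ≤ k → IsMain k (P k)) →
    ∀ (Q : ℂ[X]) (A : ℂ → ℂ), Q ≠ 0 → Tame A →
      (∀ k : ℕ, 1 ≤ k → ∀ ε : ℝ, 0 < ε → ∃ η : ℝ, 0 < η ∧
        ∀ θ : ℝ, 1 / 2 ≤ θ → θ ≤ 1 →
          (∃ T₀ : ℝ, ∀ T : ℝ, T₀ ≤ T → Few (F Q A) θ η T) →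
            ∃ C : ℝ, ∀ x : ℝ, 1 ≤ x → |Delta k (P k) x| ≤ C * x ^ (θ + ε)) ∧
      (∀ ε : ℝ, 0 < ε → ∃ K₀ : ℕ, ∀ K : ℕ, K₀ ≤ K → ∀ θ : ℝ, 1 / 2 ≤ θ → θ < 1 →
        (Side 1 K (P K) θ ∨ Side (-1) K (P K) θ) →
          ∃ T₀ : ℝ, ∀ T : ℝ, T₀ ≤ T → Few (F Q A) θ ε T) ∧
      (∀ θ : ℝ, 1 / 2 ≤ θ → θ < 1 →
        ((∀ k : ℕ, 1 ≤ k → Sup k (P k) θ) ↔
          ∀ ε : ℝ, 0 < ε → ∃ T₀ : ℝ, ∀ T : ℝ, T₀ ≤ T → Few (F Q A) θ ε T)) := by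
  have ht : ∀ {A : ℂ → ℂ}, Tame A → Pool.Agent.Y853.SP.Tame A := fun h => ⟨h.1, h.2⟩
  have hne : |(-1 : ℝ)| = 1 := by norm_num
  refine ⟨fun k hk => Pool.Agent.Y853.PZ.existsUnique_main hk, fun P hP Q A hQ hA => ⟨?_, ?_, ?_⟩⟩
  · intro k hk ε hε
    exact Pool.Agent.Y853.PZ.sup_of_few1 hk (hP k hk) hQ (ht hA) hε
  · intro ε hε
    obtain ⟨K₀, h⟩ := Pool.Agent.Y853.PZ.few_of_side hP hQ (ht hA) hε
    refine ⟨K₀, fun K hK θ h1 h2 hs => h K hK θ h1 h2 ?_⟩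
    rcases hs with hs | hs
    · exact ⟨1, abs_one, hs⟩
    · exact ⟨-1, hne, hs⟩
  · intro θ h1 h2
    exact Pool.Agent.Y853.PZ.sup_iff_few hP hQ (ht hA) h1 h2

end Pool.Agent.Results.MP_bc6037_nt.ExponentsAndZeros
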