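import Pool.Agent.Y853.PZ.Fin

/-!
# One-sided exponents in the divisor problem of Piltz, and the growth of zeta
-/

set_option autoImplicit false

open Polynomial Filter Topology

namespace Pool.Agent.Results.MP_bc6037_nt.OneSidedExponents

/-- The sum of `d_k(n)` over `n ≤ x`. -/
noncomputable def D (k : ℕ) (x : ℝ) : ℝ :=
  ∑ n ∈ Finset.Icc 1 ⌊x⌋₊, (((ArithmeticFunction.zeta ^ k : ArithmeticFunction ℕ) n : ℕ) : ℝ)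

/-- `D_k(x) - x P(log x)`. -/
noncomputable def Delta (k : ℕ) (P : ℝ[X]) (x : ℝ) : ℝ := D k x - x * P.eval (Real.log x)

/-- `x P(log x)` is the main term of `D_k(x)`: the difference is `o(x)`. For each `k ≥ 1` there is exactly
one such `P` (first part of the theorem), so `Delta k P` is then the remainder `Δ_k`. -/
def IsMain (k : ℕ) (P : ℝ[X]) : Prop := Tendsto (fun x : ℝ => Delta k P x / x) atTop (𝓝 0)

/-- `Δ_k(x) = O(x^(θ + ε))` for every `ε > 0`; that is `α_k ≤ θ`. -/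
def Sup (k : ℕ) (P : ℝ[X]) (θ : ℝ) : Prop := ∀ ε : ℝ, 0 < ε → ∃ C : ℝ, ∀ x : ℝ, 1 ≤ x →
  |Delta k P x| ≤ C * x ^ (θ + ε)

/-- The first moment of `|Δ_k|` over `[X, 2X]` is `O(X^(1 + θ + ε))` for every `ε > 0`. -/
def Mean (k : ℕ) (P : ℝ[X]) (θ : ℝ) : Prop := ∀ ε : ℝ, 0 < ε → ∃ C : ℝ, ∀ X : ℝ, 1 ≤ X →
  ∫ x in X..(2 * X), |Delta k P x| ≤ C * X ^ (1 + θ + ε)

/-- The same bound for the positive part of `e Δ_k` alone; `e = 1` and `e = -1` are used. -/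
def Side (e : ℝ) (k : ℕ) (P : ℝ[X]) (θ : ℝ) : Prop := ∀ ε : ℝ, 0 < ε → ∃ C : ℝ, ∀ X : ℝ, 1 ≤ X →
  ∫ x in X..(2 * X), max (e * Delta k P x) 0 ≤ C * X ^ (1 + θ + ε)

/-- `ζ(σ + it) = O(|t|^ε)` for every `σ > θ` and `ε > 0`. -/
def Small (θ : ℝ) : Prop := ∀ σ : ℝ, θ < σ → ∀ ε : ℝ, 0 < ε → ∃ C : ℝ, ∀ t : ℝ, 1 ≤ |t| →
  ‖riemannZeta (σ + t * Complex.I)‖ ≤ C * |t| ^ ε

/-- The Lindelöf hypothesis. -/
def Lindelof : Prop := ∀ ε : ℝ, 0 < ε → ∃ C : ℝ, ∀ t : ℝ,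
  ‖riemannZeta (1 / 2 + t * Complex.I)‖ ≤ C * (1 + |t|) ^ ε

theorem result :
    (∀ k : ℕ, 1 ≤ k → ∃! P : ℝ[X], IsMain k P) ∧
    ∀ P : ℕ → ℝ[X], (∀ k : ℕ, 1 ≤ k → IsMain k (P k)) →
      (∀ k : ℕ, 1 ≤ k → ∀ θ : ℝ, 0 ≤ θ →
        (Side 1 k (P k) θ ↔ Mean k (P k) θ) ∧ (Side (-1) k (P k) θ ↔ Mean k (P k) θ)) ∧
      (∀ k K : ℕ, 1 ≤ k → 1 ≤ K → ∀ θ : ℝ, 0 ≤ θ → θ < 1 →
        (Side 1 K (P K) θ ∨ Side (-1) K (P K) θ) → Sup k (P k) ((K * θ + k) / (K + k))) ∧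
      (∀ θ : ℝ, 0 ≤ θ → θ < 1 →
        ((∀ k : ℕ, 1 ≤ k → Sup k (P k) θ) ↔
          {K : ℕ | 1 ≤ K ∧ (Side 1 K (P K) θ ∨ Side (-1) K (P K) θ)}.Infinite) ∧
        ((∀ k : ℕ, 1 ≤ k → Sup k (P k) θ) ↔ Small θ)) ∧
      (Lindelof ↔ {K : ℕ | 1 ≤ K ∧ (Side 1 K (P K) (1 / 2) ∨ Side (-1) K (P K) (1 / 2))}.Infinite) := by
  have hne : |(-1 : ℝ)| = 1 := by norm_num
  have hside : ∀ {K : ℕ} {Q : ℝ[X]} {θ : ℝ}, (Side 1 K Q θ ∨ Side (-1) K Q θ) ↔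
      ∃ e : ℝ, |e| = 1 ∧ Pool.Agent.Y853.PZ.Side e K Q θ := by
    intro K Q θ
    constructor
    · rintro (h | h)
      · exact ⟨1, abs_one, h⟩
      · exact ⟨-1, hne, h⟩
    · rintro ⟨e, he, h⟩
      rcases (abs_eq (zero_le_one' ℝ)).1 he with h1 | h1
      · subst h1; exact Or.inl h
      · subst h1; exact Or.inr h
  refine ⟨fun k hk => Pool.Agent.Y853.PZ.existsUnique_main hk, fun P hP => ?_⟩
  have hP' : ∀ k : ℕ, 1 ≤ k → Pool.Agent.Y853.PZ.IsMain k (P k) := hP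
  have hset : ∀ θ : ℝ, {K : ℕ | 1 ≤ K ∧ (Side 1 K (P K) θ ∨ Side (-1) K (P K) θ)} =
      {K : ℕ | 1 ≤ K ∧ ∃ e : ℝ, |e| = 1 ∧ Pool.Agent.Y853.PZ.Side e K (P K) θ} := by
    intro θ
    ext K
    exact and_congr_right fun _ => hside
  have htf : ∀ θ : ℝ, 0 ≤ θ → θ < 1 →
        ((∀ k : ℕ, 1 ≤ k → Sup k (P k) θ) ↔
          {K : ℕ | 1 ≤ K ∧ (Side 1 K (P K) θ ∨ Side (-1) K (P K) θ)}.Infinite) ∧
        ((∀ k : ℕ, 1 ≤ k → Sup k (P k) θ) ↔ Small θ) := by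
    intro θ h0 h1
    have h := Pool.Agent.Y853.PZ.tfae hP' h0 h1
    rw [hset]
    exact ⟨h.out 0 1, h.out 0 2⟩
  refine ⟨fun k hk θ hθ => ⟨Pool.Agent.Y853.PZ.side_iff hk (hP' k hk) hθ abs_one,
      Pool.Agent.Y853.PZ.side_iff hk (hP' k hk) hθ hne⟩, ?_, htf, ?_⟩
  · intro k K hk hK θ h0 h1 h
    obtain ⟨e, he, h2⟩ := hside.1 h
    exact Pool.Agent.Y853.PZ.cross hk hK (hP' k hk) (hP' K hK) h0 h1
      ((Pool.Agent.Y853.PZ.side_iff hK (hP' K hK) h0 he).1 h2)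
  · obtain ⟨h1, h2⟩ := htf (1 / 2) (by norm_num) (by norm_num)
    rw [← h1, h2]
    exact ⟨Pool.Agent.Y853.PZ.small_of_lindelof, Pool.Agent.Y853.PZ.lindelof_of_small⟩

end Pool.Agent.Results.MP_bc6037_nt.OneSidedExponents
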